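import Pool.Agent.Q31.GLV.Stm

/-!
# Project GLV, job CO
-/

set_option autoImplicit false

namespace Pool.Agent.Q208.GLV

open Pool.Agent.Q31.GLV

theorem t_CO : S_CO := by
  intro F V _ _ _ H hH U hU h hh c hc0 hc x hx f
  obtain ⟨k, hk, hkf⟩ := hH U hU f
  have hkinv : ∀ u : U, (k⁻¹ : V ≃ₗ[F] V) (u : V) = ((f⁻¹ : U ≃ₗ[F] U) u : U) := by
    intro u
    have h1 : k (((f⁻¹ : U ≃ₗ[F] U) u : U) : V) = (u : V) := by
      rw [hkf]
      exact congrArg Subtype.val (f.apply_symm_apply u)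
    change k.symm (u : V) = _
    rw [← h1]
    exact k.symm_apply_apply _
  have hhinv : ∀ u : U, (h⁻¹ : V ≃ₗ[F] V) (u : V) = ((x⁻¹ : U ≃ₗ[F] U) u : U) := by
    intro u
    have h1 : h (((x⁻¹ : U ≃ₗ[F] U) u : U) : V) = (u : V) := by
      rw [← hx]
      exact congrArg Subtype.val (x.apply_symm_apply u)
    change h.symm (u : V) = _
    rw [← h1]
    exact h.symm_apply_apply _
  refine ⟨h * k * h⁻¹ * k⁻¹, H.mul_mem (H.mul_mem (H.mul_mem hh hk) (H.inv_mem hh))
    (H.inv_mem hk), ?_, ?_⟩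
  · intro u
    change h (k ((h⁻¹ : V ≃ₗ[F] V) ((k⁻¹ : V ≃ₗ[F] V) (u : V)))) = _
    rw [hkinv, hhinv, hkf, ← hx]
    rfl
  · intro v
    set w : V := (k⁻¹ : V ≃ₗ[F] V) v with hw
    have hkw : k w = v := k.apply_symm_apply v
    set z : V := (h⁻¹ : V ≃ₗ[F] V) w with hz
    have hhz : h z = w := h.apply_symm_apply w
    have h1 : w - c • z ∈ U := by
      have := hc z
      rwa [hhz] at this
    have h2 : z - c⁻¹ • w ∈ U := by
      have h3 : z - c⁻¹ • w = -(c⁻¹ • (w - c • z)) := by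
        rw [smul_sub, smul_smul, inv_mul_cancel₀ hc0, one_smul]
        abel
      rw [h3]
      exact U.neg_mem (U.smul_mem _ h1)
    have h4 : k z - c⁻¹ • v = ((f ⟨z - c⁻¹ • w, h2⟩ : U) : V) := by
      rw [← hkf]
      change _ = k (z - c⁻¹ • w)
      rw [map_sub, map_smul, hkw]
    have h5 : h (k z - c⁻¹ • v) ∈ U := by
      rw [h4, ← hx]
      exact Subtype.property _
    have h6 : h (k z) - v = h (k z - c⁻¹ • v) + c⁻¹ • (h v - c • v) := by
      rw [map_sub, map_smul, smul_sub, smul_smul, inv_mul_cancel₀ hc0, one_smul]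
      abel
    change h (k z) - v ∈ U
    rw [h6]
    exact U.add_mem h5 (U.smul_mem _ (hc v))

end Pool.Agent.Q208.GLV
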